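import Pool.Agent.N805.VP.Base

/-! # From unions of cells to products of cells, an odd number of points -/

set_option autoImplicit false

open MeasureTheory Set Filter Topology

namespace Pool.Agent.N152.VP

open Pool.Agent.N805.VP

/-- finitely many cells are bounded -/
lemma cells_bdd {k : ℕ} {h : ℝ} (hh : 0 < h) (g : Fin k → ℤ) :
    ∃ b : ℝ, ∀ i, cell h (g i) ⊆ Icc (-b) b := by
  refine ⟨(∑ i, |(g i : ℝ)| * h) + h, fun i => cell_bdd hh ?_⟩
  exact Finset.single_le_sum (f := fun i => |(g i : ℝ)| * h) (fun _ _ => by positivity)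
    (Finset.mem_univ i)

/-- a coincident pair -/
lemma G_coin (hD : S_DET) {k : ℕ} {h : ℝ} (hh : 0 < h) (g : Fin k → ℤ) {i1 i2 : Fin k}
    (hne : i1 ≠ i2) (hg : g i1 = g i2) : G (fun i => cell h (g i)) ≤ 4 * h ^ (k + 2) := by
  have h0 := G_le_of (c := fun i => cell h (g i)) (fun i => cell_meas h _) (cells_bdd hh g)
    (M := 4 * h ^ 2) ?_
  · refine h0.trans (le_of_eq ?_)
    simp_rw [cell_vol h hh.le]
    rw [Finset.prod_const, Finset.card_univ, Fintype.card_fin]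
    ring
  · intro q hq
    refine ((hD k q).2.2 i1 i2 hne).trans ?_
    have h1 : q i1 ∈ cell h (g i1) := hq i1 (mem_univ _)
    have h2 : q i2 ∈ cell h (g i2) := hq i2 (mem_univ _)
    rw [hg] at h1
    have h3 := h1.1
    have h4 := h1.2
    have h5 := h2.1
    have h6 := h2.2
    have h7 : (q i1 - q i2) ^ 2 ≤ h ^ 2 := by
      apply sq_le_sq'
      · nlinarith
      · nlinarith
    linarith

/-- cells of size `1 / r` with index at most `b r` -/
lemma cell_sub {b r : ℕ} (hr : 1 ≤ r) {a : ℤ} (ha : |a| ≤ b * r) :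
    cell (1 / (r : ℝ)) a ⊆ Icc (-((b : ℝ) + 1)) (b + 1) := by
  have hr0 : (0 : ℝ) < r := by exact_mod_cast hr
  have hr1 : (1 : ℝ) ≤ r := by exact_mod_cast hr
  have h1 : |(a : ℝ)| * (1 / (r : ℝ)) ≤ b := by
    rw [mul_one_div, div_le_iff₀ hr0]
    exact_mod_cast ha
  have h2 := cell_bdd (by positivity : (0 : ℝ) < 1 / r) h1
  have h3 : 1 / (r : ℝ) ≤ 1 := by
    rw [div_le_one hr0]
    exact hr1
  refine h2.trans (Icc_subset_Icc ?_ ?_) <;> linarith

/-- the moments with a coincident pair are small -/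
lemma mom_coin (hD : S_DET) (hH : S_HOL) (l : Filter ℝ) (J : ℝ → Finset ℕ)
    (x : ℝ → ℕ → ℝ) (X : ℝ → ℝ) (hX : ∀ᶠ T in l, 0 < X T) (n : ℕ) (hn : 2 ≤ n)
    (hM : Mom l J x X) (hE : EqP l J x X n) (b : ℕ) : ∃ C : ℝ, 0 ≤ C ∧ ∀ r : ℕ, 1 ≤ r →
    ∀ g : Fin (n + 1) → ℤ, (∀ i, |g i| ≤ b * r) → ¬ Function.Injective g → ∀ δ : ℝ, 0 < δ →
    ∀ᶠ T in l, mom (J T) (x T) (fun i => cell (1 / (r : ℝ)) (g i)) / X T ≤
      C / (r : ℝ) ^ (n + 1) / Real.sqrt r + δ := by
  obtain ⟨C, hC0, hC⟩ := hM (b + 1) ((n + 1) * ((2 * (n + 1) + 1) + 1))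
    (Nat.mul_pos (by omega) (by omega))
  refine ⟨4 + C, by positivity, fun r hr g hg hinj δ hδ => ?_⟩
  have hr0 : (0 : ℝ) < r := by exact_mod_cast hr
  have hs0 : 0 < Real.sqrt r := Real.sqrt_pos.2 hr0
  have hss : Real.sqrt r * Real.sqrt r = r := Real.mul_self_sqrt hr0.le
  obtain ⟨i1, i2, h12, hne⟩ : ∃ i1 i2, g i1 = g i2 ∧ i1 ≠ i2 := by
    unfold Function.Injective at hinj
    push Not at hinj
    exact hinj
  obtain ⟨i, hi1, hi2⟩ : ∃ i : Fin (n + 1), i ≠ i1 ∧ i ≠ i2 := by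
    by_contra hcon
    push Not at hcon
    have h1 : (Finset.univ : Finset (Fin (n + 1))) ⊆ {i1, i2} := by
      intro i _
      by_cases h : i = i1
      · simp [h]
      · simp [hcon i h]
    have h2 := Finset.card_le_card h1
    rw [Finset.card_univ, Fintype.card_fin] at h2
    have h3 := Finset.card_le_two (a := i1) (b := i2)
    omega
  obtain ⟨j1, hj1⟩ := Fin.exists_succAbove_eq hi1.symm
  obtain ⟨j2, hj2⟩ := Fin.exists_succAbove_eq hi2.symm
  have hjne : j1 ≠ j2 := by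
    rintro rfl
    exact hne (hj1.symm.trans hj2)
  have hG : G (fun j : Fin n => cell (1 / (r : ℝ)) (g (i.succAbove j))) ≤
      4 * (1 / (r : ℝ)) ^ (n + 2) :=
    G_coin hD (by positivity) (fun j => g (i.succAbove j)) hjne (by rw [hj1, hj2]; exact h12)
  have hlim := hE (fun j => (g (i.succAbove j) : ℝ) * (1 / (r : ℝ)))
    (fun j => ((g (i.succAbove j) : ℝ) + 1) * (1 / (r : ℝ)))
    (fun j => mul_lt_mul_of_pos_right (by linarith) (by positivity))
  have hlt : G (fun j : Fin n => cell (1 / (r : ℝ)) (g (i.succAbove j))) <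
      4 * (1 / (r : ℝ)) ^ (n + 2) + δ / Real.sqrt r := by
    have : 0 < δ / Real.sqrt r := by positivity
    linarith
  have hev := hlim.eventually (gt_mem_nhds hlt)
  filter_upwards [hX, hC, hev] with T hT hCT heT
  have hhol := hH (J T) (x T) n (fun i => cell (1 / (r : ℝ)) (g i)) (Icc (-((b : ℝ) + 1)) (b + 1))
    (by omega) (fun i => ⟨cell_meas _ _, cell_sub hr (hg i)⟩) measurableSet_Icc ⟨_, subset_rfl⟩
    i (Real.sqrt r) hs0 (2 * (n + 1) + 1)
  have e1 : mom (J T) (x T) (fun j : Fin n => cell (1 / (r : ℝ)) (g (i.succAbove j))) ≤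
      (4 * (1 / (r : ℝ)) ^ (n + 2) + δ / Real.sqrt r) * X T := by
    have h1 : mom (J T) (x T) (fun j : Fin n => cell (1 / (r : ℝ)) (g (i.succAbove j))) / X T <
      4 * (1 / (r : ℝ)) ^ (n + 2) + δ / Real.sqrt r := heT
    rw [div_lt_iff₀ hT] at h1
    exact h1.le
  rw [div_le_iff₀ hT]
  have e2 : (Real.sqrt r)⁻¹ ^ (2 * (n + 1) + 1) = 1 / (r : ℝ) ^ (n + 1) / Real.sqrt r := by
    rw [inv_pow, pow_succ, pow_mul, sq, hss]
    field_simp
  have e3 : Real.sqrt r * (4 * (1 / (r : ℝ)) ^ (n + 2) + δ / Real.sqrt r) =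
      4 / (r : ℝ) ^ (n + 1) / Real.sqrt r + δ := by
    have h1 : Real.sqrt r * (1 / (r : ℝ)) ^ (n + 2) = 1 / (r : ℝ) ^ (n + 1) / Real.sqrt r := by
      rw [one_div, inv_pow, pow_succ (r : ℝ) (n + 1)]
      nth_rw 3 [← hss]
      field_simp
    have h2 : Real.sqrt r * (δ / Real.sqrt r) = δ := by
      field_simp
    rw [mul_add, h2, ← mul_assoc, mul_comm (Real.sqrt r) 4, mul_assoc, h1]
    ring
  calc mom (J T) (x T) (fun i => cell (1 / (r : ℝ)) (g i))
      ≤ Real.sqrt r * mom (J T) (x T) (fun j : Fin n => cell (1 / (r : ℝ)) (g (i.succAbove j))) +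
        (Real.sqrt r)⁻¹ ^ (2 * (n + 1) + 1) *
          ∫ t, (cnt (J T) (x T) (Icc (-((b : ℝ) + 1)) (b + 1)) t : ℝ) ^
            ((n + 1) * (2 * (n + 1) + 1 + 1)) := hhol
    _ ≤ Real.sqrt r * ((4 * (1 / (r : ℝ)) ^ (n + 2) + δ / Real.sqrt r) * X T) +
        (Real.sqrt r)⁻¹ ^ (2 * (n + 1) + 1) * (C * X T) := by
        refine add_le_add (mul_le_mul_of_nonneg_left e1 hs0.le)
          (mul_le_mul_of_nonneg_left hCT (by positivity))
    _ = ((4 + C) / (r : ℝ) ^ (n + 1) / Real.sqrt r + δ) * X T := by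
        rw [← mul_assoc, e3, e2]
        ring

theorem CELO : Pool.Agent.N805.VP.S_CELO := by
  classical
  intro hD hSPL hSYM hHOL l J x X hX m hm hM hE hU b
  obtain ⟨n, rfl⟩ : ∃ n, m = n + 1 := ⟨m - 1, by omega⟩
  rw [Nat.add_sub_cancel] at hE
  obtain ⟨C, hC0, hC⟩ := mom_coin hD hHOL l J x X hX n (by omega) hM hE b
  obtain ⟨N, hN⟩ : ∃ N : ℝ, N = ((n + 1 : ℕ) : ℝ) ^ (n + 1) := ⟨_, rfl⟩
  have hN0 : 1 ≤ N := by
    rw [hN]
    exact one_le_pow₀ (by push_cast; linarith [(Nat.cast_nonneg n : (0 : ℝ) ≤ n)])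
  refine ⟨4 + N * C, by positivity, fun r hr f hf ε hε => ?_⟩
  have hr0 : (0 : ℝ) < r := by exact_mod_cast hr
  have hr1 : (1 : ℝ) ≤ r := by exact_mod_cast hr
  have hs0 : 0 < Real.sqrt r := Real.sqrt_pos.2 hr0
  have hh : 0 < 1 / (r : ℝ) := by positivity
  have hq : 0 ≤ 1 / (r : ℝ) ^ (n + 1) / Real.sqrt r := by positivity
  by_cases hinj : Function.Injective f
  swap
  · filter_upwards [hX] with T hT
    obtain ⟨i1, i2, h12, hne⟩ : ∃ i1 i2, f i1 = f i2 ∧ i1 ≠ i2 := by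
      unfold Function.Injective at hinj
      push Not at hinj
      exact hinj
    have h1 := G_coin hD hh f hne h12
    have h2 : 0 ≤ mom (J T) (x T) (fun i => cell (1 / (r : ℝ)) (f i)) / X T :=
      div_nonneg (mom_nonneg _) hT.le
    have h3 : (1 / (r : ℝ)) ^ (n + 1 + 2) ≤ 1 / (r : ℝ) ^ (n + 1) / Real.sqrt r := by
      rw [one_div_pow, pow_add, ← div_div]
      refine div_le_div_of_nonneg_left (by positivity) hs0 ?_
      rw [Real.sqrt_le_left (by positivity)]
      nlinarith [pow_le_pow_right₀ hr1 (show 1 ≤ 4 by norm_num), sq_nonneg ((r : ℝ) ^ 2)]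
    have h4 : (4 + N * C) / (r : ℝ) ^ (n + 1) / Real.sqrt r =
        (4 + N * C) * (1 / (r : ℝ) ^ (n + 1) / Real.sqrt r) := by ring
    rw [h4]
    have h5 : 0 ≤ N * C * (1 / (r : ℝ) ^ (n + 1) / Real.sqrt r) := by positivity
    nlinarith
  · obtain ⟨A, hA⟩ : ∃ A : Finset ℤ, A = Finset.univ.image f := ⟨_, rfl⟩
    have hAb : ∀ a ∈ A, |a| ≤ (b : ℤ) * r := by
      intro a ha
      rw [hA, Finset.mem_image] at ha
      obtain ⟨i, _, rfl⟩ := ha
      exact hf i
    obtain ⟨B, hB⟩ : ∃ B : Finset (Fin (n + 1) → ℤ), B = (Fintype.piFinset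
        (fun _ : Fin (n + 1) => A)).filter (fun g => ¬ Function.Injective g) := ⟨_, rfl⟩
    have hBc : (B.card : ℝ) ≤ N := by
      have h1 : B.card ≤ (n + 1) ^ (n + 1) := by
        rw [hB]
        refine (Finset.card_filter_le _ _).trans ?_
        rw [Fintype.card_piFinset, Finset.prod_const, Finset.card_univ, Fintype.card_fin]
        refine Nat.pow_le_pow_left ?_ _
        rw [hA]
        refine Finset.card_image_le.trans ?_
        rw [Finset.card_univ, Fintype.card_fin]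
      rw [hN]
      exact_mod_cast h1
    have hev1 : ∀ᶠ T in l, ∀ g ∈ B, mom (J T) (x T) (fun i => cell (1 / (r : ℝ)) (g i)) / X T ≤
        C / (r : ℝ) ^ (n + 1) / Real.sqrt r + ε / (2 * N) := by
      rw [Finset.eventually_all]
      intro g hg
      rw [hB, Finset.mem_filter, Fintype.mem_piFinset] at hg
      exact hC r hr g (fun i => hAb _ (hg.1 i)) hg.2 _ (by positivity)
    have hev2 := hU r hr A (ε / 2) (by positivity)
    filter_upwards [hX, hev1, hev2] with T hT h1 h2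
    obtain ⟨F, hF⟩ : ∃ F : (Fin (n + 1) → ℤ) → ℝ, F = fun g =>
      G (fun i => cell (1 / (r : ℝ)) (g i)) -
        mom (J T) (x T) (fun i => cell (1 / (r : ℝ)) (g i)) / X T := ⟨_, rfl⟩
    have hFs : ∀ (σ : Equiv.Perm (Fin (n + 1))) (g : Fin (n + 1) → ℤ),
        F (fun i => g (σ i)) = F g := by
      intro σ g
      have h3 := hSPL.2 (J T) (x T) (n + 1) σ (fun i => cell (1 / (r : ℝ)) (g i))
      rw [hF]
      show G (fun i => cell (1 / (r : ℝ)) (g (σ i))) -
        mom (J T) (x T) (fun i => cell (1 / (r : ℝ)) (g (σ i))) / X T = _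
      rw [h3.1, h3.2]
    have hsym := hSYM (n + 1) F hFs f hinj
    have hspl := hSPL.1 ℤ (J T) (x T) (cell (1 / (r : ℝ))) A
      (fun a _ => ⟨cell_meas _ _, _, cell_bdd hh (le_refl _)⟩)
      ((cell_disj hh).subset (subset_univ _)) (n + 1)
    have hsum : ∑ g ∈ Fintype.piFinset (fun _ : Fin (n + 1) => A), F g =
        G (fun _ : Fin (n + 1) => U (1 / (r : ℝ)) A) -
        mom (J T) (x T) (fun _ : Fin (n + 1) => U (1 / (r : ℝ)) A) / X T := by
      rw [hF, Finset.sum_sub_distrib, ← Finset.sum_div]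
      unfold U
      rw [hspl.1, hspl.2]
    have hs2 : ∑ g ∈ Fintype.piFinset (fun _ : Fin (n + 1) => A), F g =
        ((n + 1).factorial : ℝ) * F f + ∑ g ∈ B, F g := by
      rw [hB, hA]
      convert hsym using 2
    have hs3 : -∑ g ∈ B, F g ≤ N * (C / (r : ℝ) ^ (n + 1) / Real.sqrt r + ε / (2 * N)) := by
      rw [← Finset.sum_neg_distrib]
      have h4 : ∀ g ∈ B, -F g ≤ C / (r : ℝ) ^ (n + 1) / Real.sqrt r + ε / (2 * N) := by
        intro g hg
        have h5 := h1 g hg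
        have h6 : 0 ≤ G (fun i => cell (1 / (r : ℝ)) (g i)) :=
          G_nonneg hD fun i => cell_meas _ _
        rw [hF]
        show -(G (fun i => cell (1 / (r : ℝ)) (g i)) -
          mom (J T) (x T) (fun i => cell (1 / (r : ℝ)) (g i)) / X T) ≤ _
        linarith
      refine (Finset.sum_le_sum h4).trans ?_
      rw [Finset.sum_const, nsmul_eq_mul]
      exact mul_le_mul_of_nonneg_right hBc (by positivity)
    have h7 : N * (C / (r : ℝ) ^ (n + 1) / Real.sqrt r + ε / (2 * N)) =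
        N * C / (r : ℝ) ^ (n + 1) / Real.sqrt r + ε / 2 := by
      have : N ≠ 0 := by positivity
      field_simp
    have h8 : ((n + 1).factorial : ℝ) * F f ≤
        N * C / (r : ℝ) ^ (n + 1) / Real.sqrt r + ε := by
      linarith
    have h9 : (1 : ℝ) ≤ ((n + 1).factorial : ℝ) := by
      exact_mod_cast Nat.factorial_pos (n + 1)
    have h10 : F f ≤ N * C / (r : ℝ) ^ (n + 1) / Real.sqrt r + ε := by
      rcases le_or_gt (F f) 0 with h | h
      · exact h.trans (by positivity)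
      · nlinarith
    have h11 : (4 + N * C) / (r : ℝ) ^ (n + 1) / Real.sqrt r =
        4 * (1 / (r : ℝ) ^ (n + 1) / Real.sqrt r) + N * C / (r : ℝ) ^ (n + 1) / Real.sqrt r := by
      ring
    have h12 : F f = G (fun i => cell (1 / (r : ℝ)) (f i)) -
        mom (J T) (x T) (fun i => cell (1 / (r : ℝ)) (f i)) / X T := by rw [hF]
    rw [h11]
    linarith

end Pool.Agent.N152.VP
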